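import Mathlib

set_option autoImplicit false

/-!
# Bogolyubov's lemma for large subsets of `F_2^d`
-/

namespace Pool.Agent.Y512.Top

open Finset

/-- The nontrivial character of the field with two elements. -/
noncomputable def sg (a : ZMod 2) : ℝ := if a = 0 then 1 else -1

theorem sg_add (a b : ZMod 2) : sg (a + b) = sg a * sg b := by
  have h : ∀ a : ZMod 2, a = 0 ∨ a = 1 := by decide
  have h10 : (1 : ZMod 2) ≠ 0 := by decide
  have h11 : (1 : ZMod 2) + 1 = 0 := by decide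
  rcases h a with rfl | rfl <;> rcases h b with rfl | rfl <;> simp [sg, h11]

theorem sg_zero : sg 0 = 1 := by simp [sg]

theorem sg_one : sg 1 = -1 := by simp [sg]

theorem sg_le (a : ZMod 2) : |sg a| = 1 := by
  unfold sg
  split_ifs <;> simp

variable {d : ℕ}

/-- The dot product. -/
def dot (r x : Fin d → ZMod 2) : ZMod 2 := ∑ i, r i * x i

theorem dot_add (r x y : Fin d → ZMod 2) : dot r (x + y) = dot r x + dot r y := by
  simp [dot, mul_add, Finset.sum_add_distrib]

theorem add_dot (r s x : Fin d → ZMod 2) : dot (r + s) x = dot r x + dot s x := by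
  simp [dot, add_mul, Finset.sum_add_distrib]

theorem single_dot (i : Fin d) (x : Fin d → ZMod 2) : dot (Pi.single i 1) x = x i := by
  simp [dot, Pi.single_apply]

theorem zero_dot (x : Fin d → ZMod 2) : dot 0 x = 0 := by simp [dot]

theorem orth (x : Fin d → ZMod 2) :
    ∑ r : Fin d → ZMod 2, sg (dot r x) = if x = 0 then (2 : ℝ) ^ d else 0 := by
  classical
  split_ifs with h
  · subst h
    simp [dot, sg_zero]
  · obtain ⟨i, hi⟩ : ∃ i, x i ≠ 0 := by
      by_contra hcon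
      push Not at hcon
      exact h (funext hcon)
    have hi1 : x i = 1 := by
      have : ∀ a : ZMod 2, a ≠ 0 → a = 1 := by decide
      exact this _ hi
    have h1 : ∑ r : Fin d → ZMod 2, sg (dot r x) =
        ∑ r : Fin d → ZMod 2, sg (dot (r + Pi.single i 1) x) :=
      (Equiv.sum_comp (Equiv.addRight (Pi.single i 1 : Fin d → ZMod 2))
        fun r => sg (dot r x)).symm
    have h2 : ∑ r : Fin d → ZMod 2, sg (dot (r + Pi.single i 1) x) =
        - ∑ r : Fin d → ZMod 2, sg (dot r x) := by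
      rw [← Finset.sum_neg_distrib]
      refine Finset.sum_congr rfl fun r _ => ?_
      rw [add_dot, sg_add, single_dot, hi1, sg_one, mul_neg, mul_one]
    linarith

/-- The exponential sum of a family. -/
noncomputable def HH {ι : Type} (S : Finset ι) (f : ι → (Fin d → ZMod 2)) (r : Fin d → ZMod 2) :
    ℝ := ∑ i ∈ S, sg (dot r (f i))

theorem HH_mul {ι κ : Type} (S : Finset ι) (T : Finset κ) (f : ι → (Fin d → ZMod 2))
    (g : κ → (Fin d → ZMod 2)) (r : Fin d → ZMod 2) :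
    HH S f r * HH T g r = HH (S ×ˢ T) (fun p => f p.1 + g p.2) r := by
  unfold HH
  rw [Finset.sum_mul_sum, Finset.sum_product]
  refine Finset.sum_congr rfl fun i _ => Finset.sum_congr rfl fun j _ => ?_
  rw [dot_add, sg_add]

theorem sum_HH {ι : Type} (S : Finset ι) (f : ι → (Fin d → ZMod 2)) :
    ∑ r, HH S f r = 2 ^ d * ((S.filter fun i => f i = 0).card : ℝ) := by
  unfold HH
  rw [Finset.sum_comm]
  simp_rw [orth]
  rw [← Finset.sum_filter, Finset.sum_const, nsmul_eq_mul, mul_comm]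

theorem add_eq_zero_iff' (x y : Fin d → ZMod 2) : x + y = 0 ↔ x = y := by
  have h : ∀ a b : ZMod 2, a + b = 0 ↔ a = b := by decide
  constructor
  · intro hxy
    funext i
    exact (h _ _).mp (congrFun hxy i)
  · rintro rfl
    funext i
    exact (h _ _).mpr rfl

theorem bog (n : ℕ) (A : Finset (Fin d → ZMod 2)) (hA : 2 ^ d ≤ n * A.card) :
    ∃ Λ : Finset (Fin d → ZMod 2), Λ.card ≤ 2 * n ^ 2 ∧ ∀ x, (∀ r ∈ Λ, dot r x = 0) →
      ∃ a ∈ A, ∃ b ∈ A, ∃ c ∈ A, ∃ e ∈ A, a + b + (c + e) = x := by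
  classical
  have hpos : 0 < n * A.card := lt_of_lt_of_le (by positivity) hA
  have hn : 0 < n := Nat.pos_of_mul_pos_right hpos
  have hAc : 0 < A.card := Nat.pos_of_mul_pos_left hpos
  have hnR : (0 : ℝ) < n := by exact_mod_cast hn
  have hcR : (0 : ℝ) < A.card := by exact_mod_cast hAc
  have hAR : (2 : ℝ) ^ d ≤ n * A.card := by exact_mod_cast hA
  let h : (Fin d → ZMod 2) → ℝ := HH A id
  have h0 : h 0 = A.card := by
    simp [h, HH, zero_dot, sg_zero]
  have parseval : ∑ r, h r ^ 2 = 2 ^ d * A.card := by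
    have e1 : ∀ r, h r ^ 2 = HH (A ×ˢ A) (fun p => id p.1 + id p.2) r := fun r => by
      rw [sq]
      exact HH_mul A A id id r
    simp_rw [e1]
    rw [sum_HH]
    congr 2
    have e2 : (A ×ˢ A).filter (fun p : (Fin d → ZMod 2) × (Fin d → ZMod 2) => id p.1 + id p.2 = 0) =
        A.image fun a => (a, a) := by
      ext ⟨a, b⟩
      simp only [Finset.mem_filter, Finset.mem_product, id_eq, add_eq_zero_iff', Finset.mem_image,
        Prod.mk.injEq]
      constructor
      · rintro ⟨⟨h1, h2⟩, rfl⟩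
        exact ⟨a, h1, rfl, rfl⟩
      · rintro ⟨c, hc, rfl, rfl⟩
        exact ⟨⟨hc, hc⟩, rfl⟩
    rw [e2, Finset.card_image_of_injective _ (fun a b hab => (Prod.mk.inj hab).1)]
  let Λ : Finset (Fin d → ZMod 2) :=
    Finset.univ.filter fun r => (A.card : ℝ) ^ 2 ≤ 2 * n * h r ^ 2
  refine ⟨Λ, ?_, ?_⟩
  · have e1 : (Λ.card : ℝ) * (A.card : ℝ) ^ 2 ≤ 2 * n * (2 ^ d * A.card) := by
      calc (Λ.card : ℝ) * (A.card : ℝ) ^ 2 = ∑ _r ∈ Λ, (A.card : ℝ) ^ 2 := by
            rw [Finset.sum_const, nsmul_eq_mul]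
        _ ≤ ∑ r ∈ Λ, 2 * n * h r ^ 2 :=
            Finset.sum_le_sum fun r hr => (Finset.mem_filter.mp hr).2
        _ ≤ ∑ r, 2 * n * h r ^ 2 :=
            Finset.sum_le_sum_of_subset_of_nonneg (Finset.subset_univ _) fun r _ _ => by positivity
        _ = 2 * n * (2 ^ d * A.card) := by rw [← Finset.mul_sum, parseval]
    have e2 : (Λ.card : ℝ) * (A.card : ℝ) ^ 2 ≤ (2 * n ^ 2) * (A.card : ℝ) ^ 2 := by
      refine e1.trans ?_
      have : (2 : ℝ) * n * (2 ^ d * A.card) ≤ 2 * n * ((n * A.card) * A.card) := by gcongr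
      nlinarith
    have e3 : (Λ.card : ℝ) ≤ 2 * n ^ 2 := le_of_mul_le_mul_right e2 (by positivity)
    exact_mod_cast e3
  · intro x hx
    by_contra hcon
    push Not at hcon
    have e1 : ∑ r, h r ^ 4 * sg (dot r x) = 0 := by
      have e2 : ∀ r, h r ^ 4 * sg (dot r x) =
          HH (((A ×ˢ A) ×ˢ (A ×ˢ A)) ×ˢ {x}) (fun p => ((p.1.1.1 + p.1.1.2) +
            (p.1.2.1 + p.1.2.2)) + p.2) r := by
        intro r
        have f1 : h r ^ 4 = (h r * h r) * (h r * h r) := by ring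
        have f2 : h r * h r = HH (A ×ˢ A) (fun p => p.1 + p.2) r := HH_mul A A id id r
        have f3 : sg (dot r x) = HH {x} id r := by simp [HH]
        rw [f1, f2, HH_mul, f3, HH_mul]
        rfl
      simp_rw [e2]
      rw [sum_HH]
      have e3 : ((((A ×ˢ A) ×ˢ (A ×ˢ A)) ×ˢ {x}).filter (fun p : (((Fin d → ZMod 2) ×
          (Fin d → ZMod 2)) × ((Fin d → ZMod 2) × (Fin d → ZMod 2))) × (Fin d → ZMod 2) =>
          ((p.1.1.1 + p.1.1.2) + (p.1.2.1 + p.1.2.2)) + p.2 = 0)) = ∅ := by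
        rw [Finset.filter_eq_empty_iff]
        rintro ⟨⟨⟨a, b⟩, ⟨c, e⟩⟩, y⟩ hp heq
        simp only [Finset.mem_product, Finset.mem_singleton] at hp
        obtain ⟨⟨⟨ha, hb⟩, hc, he⟩, rfl⟩ := hp
        exact hcon a ha b hb c hc e he ((add_eq_zero_iff' _ _).mp heq)
      rw [e3]
      simp
    have e4 : ∀ r, r ∈ Λ → h r ^ 4 * sg (dot r x) = h r ^ 4 := fun r hr => by
      rw [hx r hr, sg_zero, mul_one]
    have e5 : ∀ r, r ∉ Λ → - (h r ^ 2 * ((A.card : ℝ) ^ 2 / (2 * n))) ≤ h r ^ 4 * sg (dot r x) := by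
      intro r hr
      have h1 : ¬ (A.card : ℝ) ^ 2 ≤ 2 * n * h r ^ 2 := fun h1 =>
        hr (Finset.mem_filter.mpr ⟨Finset.mem_univ _, h1⟩)
      have h2 : h r ^ 2 ≤ (A.card : ℝ) ^ 2 / (2 * n) := by
        rw [le_div_iff₀ (by positivity)]
        linarith [not_le.mp h1]
      have h3 : h r ^ 4 ≤ h r ^ 2 * ((A.card : ℝ) ^ 2 / (2 * n)) := by
        have : h r ^ 4 = h r ^ 2 * h r ^ 2 := by ring
        rw [this]
        exact mul_le_mul_of_nonneg_left h2 (by positivity)
      have h4 : |h r ^ 4 * sg (dot r x)| = h r ^ 4 := by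
        rw [abs_mul, sg_le, mul_one, abs_of_nonneg (by positivity)]
      have h5 := neg_abs_le (h r ^ 4 * sg (dot r x))
      rw [h4] at h5
      linarith
    have h0Λ : (0 : Fin d → ZMod 2) ∈ Λ := by
      refine Finset.mem_filter.mpr ⟨Finset.mem_univ _, ?_⟩
      rw [h0]
      have : (1 : ℝ) ≤ 2 * n := by
        have : (1 : ℝ) ≤ n := by exact_mod_cast hn
        linarith
      nlinarith [sq_nonneg (A.card : ℝ)]
    have e6 : (A.card : ℝ) ^ 4 ≤ ∑ r ∈ Λ, h r ^ 4 * sg (dot r x) := by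
      calc (A.card : ℝ) ^ 4 = h 0 ^ 4 := by rw [h0]
        _ ≤ ∑ r ∈ Λ, h r ^ 4 := Finset.single_le_sum (f := fun r => h r ^ 4)
            (fun r _ => by positivity) h0Λ
        _ = _ := (Finset.sum_congr rfl fun r hr => e4 r hr).symm
    have e7 : - ((2 ^ d * A.card) * ((A.card : ℝ) ^ 2 / (2 * n))) ≤
        ∑ r ∈ Λᶜ, h r ^ 4 * sg (dot r x) := by
      calc - ((2 ^ d * A.card) * ((A.card : ℝ) ^ 2 / (2 * n)))
          = - ((∑ r, h r ^ 2) * ((A.card : ℝ) ^ 2 / (2 * n))) := by rw [parseval]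
        _ ≤ - ((∑ r ∈ Λᶜ, h r ^ 2) * ((A.card : ℝ) ^ 2 / (2 * n))) := by
            have : ∑ r ∈ Λᶜ, h r ^ 2 ≤ ∑ r, h r ^ 2 :=
              Finset.sum_le_sum_of_subset_of_nonneg (Finset.subset_univ _) fun r _ _ => by positivity
            have h9 : (0 : ℝ) ≤ (A.card : ℝ) ^ 2 / (2 * n) := by positivity
            nlinarith
        _ = ∑ r ∈ Λᶜ, - (h r ^ 2 * ((A.card : ℝ) ^ 2 / (2 * n))) := by
            rw [Finset.sum_neg_distrib, Finset.sum_mul]
        _ ≤ _ := Finset.sum_le_sum fun r hr => e5 r (Finset.mem_compl.mp hr)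
    have e8 : ∑ r, h r ^ 4 * sg (dot r x) = ∑ r ∈ Λ, h r ^ 4 * sg (dot r x) +
        ∑ r ∈ Λᶜ, h r ^ 4 * sg (dot r x) := (Finset.sum_add_sum_compl _ _).symm
    have e9 : (2 : ℝ) ^ d * A.card * ((A.card : ℝ) ^ 2 / (2 * n)) ≤ (A.card : ℝ) ^ 4 / 2 := by
      have h1 : (2 : ℝ) ^ d * A.card * ((A.card : ℝ) ^ 2 / (2 * n)) ≤
          (n * A.card) * A.card * ((A.card : ℝ) ^ 2 / (2 * n)) := by gcongr
      refine h1.trans (le_of_eq ?_)
      field_simp
    have h10 : (0 : ℝ) < (A.card : ℝ) ^ 4 := by positivity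
    linarith

/-! ### The infinite dimensional version -/

/-- The countable dimensional space. -/
abbrev VV : Type := ℕ →₀ ZMod 2

/-- The restriction to the first `d` coordinates. -/
def res (d : ℕ) (v : VV) : Fin d → ZMod 2 := fun i => v i

/-- The vector with given first `d` coordinates. -/
noncomputable def emb (d : ℕ) (x : Fin d → ZMod 2) : VV :=
  Finsupp.onFinset (Finset.range d) (fun i => if h : i < d then x ⟨i, h⟩ else 0) (fun i hi => by
    by_contra hcon
    rw [Finset.mem_range] at hcon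
    exact hi (dif_neg hcon))

theorem emb_apply (d : ℕ) (x : Fin d → ZMod 2) (i : ℕ) :
    emb d x i = if h : i < d then x ⟨i, h⟩ else 0 := rfl

/-- `v` is supported in the first `d` coordinates. -/
def Sup (d : ℕ) (v : VV) : Prop := ∀ i, d ≤ i → v i = 0

theorem emb_res {d : ℕ} {v : VV} (hv : Sup d v) : emb d (res d v) = v := by
  ext i
  rw [emb_apply]
  split_ifs with h
  · rfl
  · exact (hv i (not_lt.mp h)).symm

theorem res_emb {d : ℕ} (x : Fin d → ZMod 2) : res d (emb d x) = x := by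
  funext i
  change emb d x i = x i
  rw [emb_apply, dif_pos i.2]

theorem emb_sup {d : ℕ} (x : Fin d → ZMod 2) : Sup d (emb d x) := fun i hi => by
  rw [emb_apply, dif_neg (not_lt.mpr hi)]

theorem emb_add {d : ℕ} (x y : Fin d → ZMod 2) : emb d (x + y) = emb d x + emb d y := by
  ext i
  rw [Finsupp.add_apply, emb_apply, emb_apply, emb_apply]
  split_ifs with h
  · rfl
  · rw [add_zero]

theorem res_add {d : ℕ} (x y : VV) : res d (x + y) = res d x + res d y := rfl

theorem Sup.mono {d d' : ℕ} (h : d ≤ d') {v : VV} (hv : Sup d v) : Sup d' v :=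
  fun i hi => hv i (h.trans hi)

theorem Sup.add {d : ℕ} {v w : VV} (hv : Sup d v) (hw : Sup d w) : Sup d (v + w) := fun i hi => by
  rw [Finsupp.add_apply, hv i hi, hw i hi, add_zero]

theorem exists_sup (F : Finset VV) : ∃ d, ∀ v ∈ F, Sup d v := by
  refine ⟨F.sup (fun v => v.support.sup id + 1), fun v hv i hi => ?_⟩
  by_contra hne
  have h1 : i ≤ v.support.sup id := Finset.le_sup (f := id) (Finsupp.mem_support_iff.2 hne)
  have h2 : v.support.sup id + 1 ≤ F.sup (fun v => v.support.sup id + 1) :=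
    Finset.le_sup (f := fun v : VV => v.support.sup id + 1) hv
  omega

/-- The functional with given values at the basis. -/
noncomputable def LL (ρ : ℕ → ZMod 2) : VV →ₗ[ZMod 2] ZMod 2 :=
  Finsupp.linearCombination (ZMod 2) ρ

theorem LL_eq {d : ℕ} {v : VV} (hv : Sup d v) (ρ : ℕ → ZMod 2) :
    LL ρ v = dot (fun i : Fin d => ρ i) (res d v) := by
  have h1 : v.support ⊆ Finset.range d := by
    intro i hi
    rw [Finset.mem_range]
    by_contra hcon
    exact (Finsupp.mem_support_iff.mp hi) (hv i (not_lt.mp hcon))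
  unfold LL dot res
  rw [Finsupp.linearCombination_apply, Finsupp.sum_of_support_subset _ h1]
  · rw [Finset.sum_range]
    refine Finset.sum_congr rfl fun i _ => ?_
    rw [smul_eq_mul, mul_comm]
  · intro i _
    rw [zero_smul]

theorem exists_fin_cover {α : Type} [Inhabited α] (m : ℕ) (Λ : Finset α) (h : Λ.card ≤ m) :
    ∃ g : Fin m → α, ∀ r ∈ Λ, ∃ j, g j = r := by
  classical
  refine ⟨fun j => if h : j.1 < Λ.card then (Λ.equivFin.symm ⟨j.1, h⟩).1 else default,
    fun r hr => ?_⟩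
  refine ⟨⟨(Λ.equivFin ⟨r, hr⟩).1, lt_of_lt_of_le (Λ.equivFin ⟨r, hr⟩).2 h⟩, ?_⟩
  have h1 : (Λ.equivFin ⟨r, hr⟩).1 < Λ.card := (Λ.equivFin ⟨r, hr⟩).2
  simp only [h1, dif_pos]
  have h2 : (⟨(Λ.equivFin ⟨r, hr⟩).1, h1⟩ : Fin Λ.card) = Λ.equivFin ⟨r, hr⟩ := rfl
  simp

/-- Bogolyubov's lemma for syndetic subsets of the countable dimensional space over the field with
two elements: the fourfold sum of such a set contains a subspace of finite codimension. -/
theorem bog_inf (A : Set VV) (F : Finset VV) (hF : ∀ v : VV, ∃ f ∈ F, f + v ∈ A) :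
    ∃ Φ : Finset (Module.Dual (ZMod 2) VV), ∀ x : VV, (∀ φ ∈ Φ, φ x = 0) →
      ∃ a ∈ A, ∃ b ∈ A, ∃ c ∈ A, ∃ e ∈ A, a + b + (c + e) = x := by
  classical
  obtain ⟨d₀, hd₀⟩ := exists_sup F
  let m : ℕ := 2 * F.card ^ 2
  -- the finite stages
  have hstage : ∀ d, d₀ ≤ d → ∃ ρ : Fin m → ℕ → ZMod 2, ∀ x : VV, Sup d x →
      (∀ j, LL (ρ j) x = 0) → ∃ a ∈ A, ∃ b ∈ A, ∃ c ∈ A, ∃ e ∈ A, a + b + (c + e) = x := by
    intro d hd
    let A' : Finset (Fin d → ZMod 2) := Finset.univ.filter fun x => emb d x ∈ A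
    have hcov : (Finset.univ : Finset (Fin d → ZMod 2)) ⊆
        F.biUnion fun f => A'.image fun a => a + res d f := by
      intro x _
      obtain ⟨f, hf, hfa⟩ := hF (emb d x)
      refine Finset.mem_biUnion.mpr ⟨f, hf, Finset.mem_image.mpr ⟨res d f + x, ?_, ?_⟩⟩
      · refine Finset.mem_filter.mpr ⟨Finset.mem_univ _, ?_⟩
        rw [emb_add, emb_res ((hd₀ f hf).mono hd)]
        exact hfa
      · funext i
        have : ∀ a b : ZMod 2, a + b + a = b := by decide
        exact this _ _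
    have hcard : 2 ^ d ≤ F.card * A'.card := by
      calc 2 ^ d = (Finset.univ : Finset (Fin d → ZMod 2)).card := by
            rw [Finset.card_univ, Fintype.card_fun, ZMod.card, Fintype.card_fin]
        _ ≤ (F.biUnion fun f => A'.image fun a => a + res d f).card := Finset.card_le_card hcov
        _ ≤ F.card * A'.card := Finset.card_biUnion_le_card_mul _ _ _ fun f _ =>
            Finset.card_image_le
    obtain ⟨Λ, hΛ, hx⟩ := bog F.card A' hcard
    have : Inhabited (Fin d → ZMod 2) := ⟨0⟩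
    obtain ⟨g, hg⟩ := exists_fin_cover m Λ hΛ
    refine ⟨fun j i => if h : i < d then g j ⟨i, h⟩ else 0, fun x hxs hx0 => ?_⟩
    have h1 : ∀ r ∈ Λ, dot r (res d x) = 0 := by
      intro r hr
      obtain ⟨j, rfl⟩ := hg r hr
      have h2 := hx0 j
      rw [LL_eq hxs] at h2
      rw [← h2]
      congr 1
      funext i
      change g j i = if h : (i : ℕ) < d then g j ⟨i, h⟩ else 0
      rw [dif_pos i.2]
    obtain ⟨a, ha, b, hb, c, hc, e, he, habce⟩ := hx (res d x) h1
    refine ⟨emb d a, (Finset.mem_filter.mp ha).2, emb d b, (Finset.mem_filter.mp hb).2, emb d c,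
      (Finset.mem_filter.mp hc).2, emb d e, (Finset.mem_filter.mp he).2, ?_⟩
    rw [← emb_add, ← emb_add, ← emb_add, habce, emb_res hxs]
  choose! ρ hρ using hstage
  -- the limit along an ultrafilter
  let 𝒰 : Ultrafilter ℕ := Filter.hyperfilter ℕ
  have hlim : ∀ j i, ∃ c : ZMod 2, ∀ᶠ d in (𝒰 : Filter ℕ), ρ d j i = c := by
    intro j i
    have h2 : ∀ a : ZMod 2, a = 0 ∨ a = 1 := by decide
    have h1 : ∀ᶠ d in (𝒰 : Filter ℕ), ρ d j i = 0 ∨ ρ d j i = 1 :=
      Filter.Eventually.of_forall fun d => h2 _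
    rcases Ultrafilter.eventually_or.mp h1 with h | h
    · exact ⟨0, h⟩
    · exact ⟨1, h⟩
  choose σ hσ using hlim
  refine ⟨Finset.univ.image fun j => LL (σ j), fun x hx => ?_⟩
  obtain ⟨d₁, hd₁⟩ := exists_sup {x}
  have hxs : Sup (max d₀ d₁) x := (hd₁ x (Finset.mem_singleton_self x)).mono (le_max_right _ _)
  have hev : ∀ᶠ d in (𝒰 : Filter ℕ), ∀ j : Fin m, ∀ i ∈ Finset.range (max d₀ d₁),
      ρ d j i = σ j i := by
    rw [Filter.eventually_all]
    intro j
    rw [Filter.eventually_all_finset]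
    intro i _
    exact hσ j i
  have hge : ∀ᶠ d in (𝒰 : Filter ℕ), max d₀ d₁ ≤ d := by
    have : (𝒰 : Filter ℕ) ≤ Filter.cofinite := Filter.hyperfilter_le_cofinite
    rw [Nat.cofinite_eq_atTop] at this
    exact this (Filter.eventually_ge_atTop _)
  obtain ⟨d, hd1, hd2⟩ := (hev.and hge).exists
  refine hρ d ((le_max_left _ _).trans hd2) x (hxs.mono hd2) fun j => ?_
  have h1 : LL (ρ d j) x = LL (σ j) x := by
    rw [LL_eq hxs, LL_eq hxs]
    congr 1
    funext i
    exact hd1 j i.1 (Finset.mem_range.mpr i.2)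
  rw [h1]
  exact hx _ (Finset.mem_image.mpr ⟨j, Finset.mem_univ j, rfl⟩)

end Pool.Agent.Y512.Top
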